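import Pool.Agent.helper3.T6R.Spec
import Pool.Agent.helper52.FT.A6f

set_option autoImplicit false

namespace Pool.Agent.T6R

open Finset NumberField Pool.Agent.helper3.FT Pool.Agent.helper47.RA Pool.Agent.T5 Pool.Agent.T6
open scoped nonZeroDivisors

theorem RTL_ex {K : Type} [Field K] [NumberField K] {Q : QF K} (T : ℕ) (C : ClassGroup (𝓞 K))
    (hC : C ^ 5 = 1) (F : Full Q) (hB : F.Bdd T) (hcls : h52_Cls F.a C) :
    ∃ s : Unit ⊕ (SD Q.D T) ⊕ (ZD Q.D T) ⊕ (ZD Q.D T), h52_Rel Q T C s := by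
  by_cases hn : Q.Y F.β = 0
  · by_cases hk : Q.Y F.γ = 0
    · obtain ⟨z, hz⟩ := F.both_zero hn hk
      refine ⟨Sum.inl (), ?_⟩
      obtain ⟨h0, hC1⟩ := hcls
      have h2 : C ^ 2 = 1 := by
        rw [← hC1, ← map_pow]
        have h3 : F.a ^ 2 ∈ nonZeroDivisors (Ideal (𝓞 K)) := pow_mem h0 2
        have h4 : (⟨F.a, h0⟩ : nonZeroDivisors (Ideal (𝓞 K))) ^ 2 = ⟨F.a ^ 2, h3⟩ := rfl
        rw [h4, ClassGroup.mk0_eq_one_iff h3, hz]
        exact ⟨⟨z, rfl⟩⟩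
      show C = 1
      calc C = C ^ 5 * (C ^ 2)⁻¹ * (C ^ 2)⁻¹ := by group
        _ = 1 := by rw [hC, h2]; simp
    · obtain ⟨m, g, e, h1, h2, h3⟩ := F.zero_case T hB hn hk
      exact ⟨Sum.inr (Sum.inr (Sum.inl ⟨_, h1⟩)), F, hcls, h2, h3⟩
  · by_cases hk : Q.Y F.γ = 0
    · obtain ⟨F', ha, hL, hβ, hγ, hu, hv, hZ, hΛ⟩ := exists_swap F
      have hY : Q.Y F'.γ = - Q.Y F.β := by rw [hγ, Q.Y_cj]
      have hB' : F'.Bdd T := by
        refine ⟨?_, ?_, ?_, ?_, ?_, ?_, ?_, ?_⟩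
        · rw [hβ]
          exact hB.bk
        · rw [hY, abs_neg]
          exact hB.bn
        · rw [hu]
          exact hB.bg
        · rw [hv, Q.Y_cj, abs_neg]
          exact hB.bm
        · rw [hZ]
          exact hB.bΛ
        · rw [hΛ]
          exact hB.bZ
        · rw [hβ]
          exact hB.bγ
        · rw [hγ, Q.v₁_cj, Q.v₂_cj, add_comm]
          exact hB.bβ
      have hn' : Q.Y F'.β = 0 := by rw [hβ]; exact hk
      have hk' : Q.Y F'.γ ≠ 0 := by rw [hY]; exact neg_ne_zero.2 hn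
      obtain ⟨m, g, e, h1, h2, h3⟩ := F'.zero_case T hB' hn' hk'
      refine ⟨Sum.inr (Sum.inr (Sum.inr ⟨_, h1⟩)), F', ?_, h2, h3⟩
      obtain ⟨h0, hC1⟩ := hcls
      -- the class of `L` is `C ^ (-2)`
      have hL0 : F.L ∈ nonZeroDivisors (Ideal (𝓞 K)) := by
        rw [mem_nonZeroDivisors_iff_ne_zero]
        intro h4
        have h5 := F.nL
        rw [h4] at h5
        simp only [Ideal.zero_eq_bot, Ideal.absNorm_bot] at h5
        exact F.hΛ (abs_eq_zero.1 (by exact_mod_cast h5.symm))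
      refine ⟨ClassGroup.mk0 ⟨F.L, hL0⟩, ⟨by rw [ha]; exact hL0, ?_⟩, ?_⟩
      · exact congrArg ClassGroup.mk0 (Subtype.ext ha)
      · have h4 : C ^ 2 * ClassGroup.mk0 ⟨F.L, hL0⟩ = 1 := by
          rw [← hC1, ← map_pow, ← map_mul]
          have h5 : F.a ^ 2 * F.L ∈ nonZeroDivisors (Ideal (𝓞 K)) := mul_mem (pow_mem h0 2) hL0
          have h6 : (⟨F.a, h0⟩ : nonZeroDivisors (Ideal (𝓞 K))) ^ 2 * ⟨F.L, hL0⟩ =
            ⟨F.a ^ 2 * F.L, h5⟩ := rfl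
          rw [h6, ClassGroup.mk0_eq_one_iff h5, ← F.iβ]
          exact ⟨⟨F.β, rfl⟩⟩
        have h5 : ClassGroup.mk0 ⟨F.L, hL0⟩ = (C ^ 2)⁻¹ := eq_inv_of_mul_eq_one_right h4
        rw [h5]
        calc ((C ^ 2)⁻¹) ^ 2 = C * (C ^ 5)⁻¹ := by group
          _ = C := by rw [hC]; simp
    · exact ⟨Sum.inr (Sum.inl ⟨F.tup, F.tup_mem T hB hn hk⟩), F, hcls, hn, hk, rfl⟩

theorem RTL : RTL_stmt := by
  intro K _ _ Q T h1 h2
  have hex : ∀ c : {c : ClassGroup (𝓞 K) | c ≠ 1 ∧ c ^ 5 = 1 ∧ ∃ F : Full Q, F.Bdd T ∧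
      ∃ h : F.a ∈ nonZeroDivisors (Ideal (𝓞 K)), ClassGroup.mk0 ⟨F.a, h⟩ = c},
      ∃ s : (SD Q.D T) ⊕ (ZD Q.D T) ⊕ (ZD Q.D T), h52_Rel Q T c.1 (Sum.inr s) := by
    rintro ⟨c, hc1, hc5, F, hB, hcls⟩
    obtain ⟨s, hs⟩ := RTL_ex T c hc5 F hB hcls
    rcases s with s | s
    · exact absurd hs hc1
    · exact ⟨s, hs⟩
  choose Φ hΦ using hex
  have hinj : Function.Injective Φ := by
    intro C C' h
    have e1 := hΦ C
    have e2 := hΦ C'
    rw [← h] at e2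
    exact Subtype.ext (h52_Rel_inj T _ _ _ e1 e2)
  have := h1.to_subtype
  have := h2.to_subtype
  have h3 := Nat.card_le_card_of_injective Φ hinj
  rw [Nat.card_sum, Nat.card_sum, Nat.card_coe_set_eq, Nat.card_coe_set_eq, Nat.card_coe_set_eq] at h3
  omega

end Pool.Agent.T6R
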